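import Mathlib
import Pool.Agent.Lib.MP_df7c80_co.Search

set_option autoImplicit false

namespace Pool.Agent.Results.MP_df7c80_co.Disproof

open SimpleGraph

/-- `G` is `F`-saturated: it contains no copy of a member of the family `F`, and adding any
missing edge creates one. -/
def IsSaturated {V : Type} (F : Set (Σ k : ℕ, SimpleGraph (Fin k))) (G : SimpleGraph V) : Prop :=
  (∀ H ∈ F, ¬ H.2 ⊑ G) ∧
    ∀ x y : V, x ≠ y → ¬ G.Adj x y → ∃ H ∈ F, H.2 ⊑ (G ⊔ edge x y)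

/-- `s` is the saturation number `sat(n, F)`: the minimum number of edges of an `F`-saturated graph
on `n` vertices. -/
def IsSatNumber (n : ℕ) (F : Set (Σ k : ℕ, SimpleGraph (Fin k))) (s : ℕ) : Prop :=
  IsLeast {m : ℕ | ∃ G : SimpleGraph (Fin n), IsSaturated F G ∧ G.edgeSet.ncard = m} s

/-- The family of the cycles `C_r`, `r ∈ I`. -/
def cycles (I : Set ℕ) : Set (Σ k : ℕ, SimpleGraph (Fin k)) :=
  {H | ∃ r ∈ I, H = ⟨r, cycleGraph r⟩}

/-- Neighbour lists of the example. -/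
def nb : Fin 15 → List (Fin 15) :=
  ![[1, 3, 4, 6, 8], [0, 2, 3, 9], [1, 5, 7], [0, 1, 10], [0, 5, 11], [2, 4, 12], [0, 7, 13],
    [2, 6, 14], [0], [1], [3], [4], [5], [6], [7]]

/-- The example: a graph with 15 vertices and 17 edges. -/
def G : SimpleGraph (Fin 15) where
  Adj u v := v ∈ nb u
  symm := ⟨by decide⟩
  loopless := ⟨by decide⟩

instance : DecidableRel G.Adj := fun u v => inferInstanceAs (Decidable (v ∈ nb u))

lemma no_cycle_check : ∀ u w : Fin 15, G.Adj u w →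
    Lib.MP_df7c80_co.reach nb 3 u w [] = false ∧ Lib.MP_df7c80_co.reach nb 6 u w [] = false ∧
    Lib.MP_df7c80_co.reach nb 9 u w [] = false ∧ Lib.MP_df7c80_co.reach nb 12 u w [] = false := by
  decide

lemma sat_check : ∀ u w : Fin 15, u ≠ w → ¬ G.Adj u w →
    (Lib.MP_df7c80_co.reach nb 3 u w [] || (Lib.MP_df7c80_co.reach nb 6 u w [] ||
      Lib.MP_df7c80_co.reach nb 9 u w [])) = true := by
  decide

lemma nb_spec : ∀ u v, v ∈ nb u ↔ G.Adj u v := fun _ _ => Iff.rfl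

/-- The set of the lengths `3 k + 1`, `k ≥ 1`. -/
def lengths : Set ℕ := {r | ∃ k : ℕ, 1 ≤ k ∧ r = 3 * k + 1}

lemma G_saturated : IsSaturated (cycles lengths) G := by
  constructor
  · rintro H ⟨r, ⟨k, hk, rfl⟩, rfl⟩ hH
    have hle : 3 * k + 1 ≤ 15 := by
      obtain ⟨f⟩ := hH
      have := Fintype.card_le_of_injective f f.injective
      simpa using this
    obtain ⟨m, hm⟩ : ∃ m, 3 * k + 1 = m + 2 := ⟨3 * k - 1, by omega⟩
    simp only at hH
    rw [hm] at hH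
    obtain ⟨u, w, huw, hp⟩ := Lib.MP_df7c80_co.path_of_cycle G m hH
    rw [← Lib.MP_df7c80_co.reach_iff G nb nb_spec] at hp
    obtain ⟨h3, h6, h9, h12⟩ := no_cycle_check u w huw
    have hcases : m + 1 = 3 ∨ m + 1 = 6 ∨ m + 1 = 9 ∨ m + 1 = 12 := by omega
    rcases hcases with h | h | h | h <;> rw [h] at hp <;> simp_all
  · intro x y hxy hna
    have h := sat_check x y hxy hna
    simp only [Bool.or_eq_true] at h
    rcases h with h | h | h
    · rw [Lib.MP_df7c80_co.reach_iff G nb nb_spec] at h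
      exact ⟨⟨4, cycleGraph 4⟩, ⟨4, ⟨1, le_rfl, rfl⟩, rfl⟩,
        Lib.MP_df7c80_co.cycle_of_path G 2 x y hxy h⟩
    · rw [Lib.MP_df7c80_co.reach_iff G nb nb_spec] at h
      exact ⟨⟨7, cycleGraph 7⟩, ⟨7, ⟨2, by norm_num, rfl⟩, rfl⟩,
        Lib.MP_df7c80_co.cycle_of_path G 5 x y hxy h⟩
    · rw [Lib.MP_df7c80_co.reach_iff G nb nb_spec] at h
      exact ⟨⟨10, cycleGraph 10⟩, ⟨10, ⟨3, by norm_num, rfl⟩, rfl⟩,
        Lib.MP_df7c80_co.cycle_of_path G 8 x y hxy h⟩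

lemma G_edges : G.edgeSet.ncard = 17 := by
  rw [← coe_edgeFinset, Set.ncard_coe_finset]
  decide

/-- The conjectured formula fails (at `n = 15`). -/
theorem result : ∃ n s : ℕ, 1 ≤ n ∧ IsSatNumber n (cycles lengths) s ∧
    (s : ℤ) < ⌈(5 * (n : ℚ) / 4 - 3 / 2)⌉ := by
  have hmem : 17 ∈ {m : ℕ | ∃ G : SimpleGraph (Fin 15),
      IsSaturated (cycles lengths) G ∧ G.edgeSet.ncard = m} := ⟨G, G_saturated, G_edges⟩
  refine ⟨15, sInf {m : ℕ | ∃ G : SimpleGraph (Fin 15),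
      IsSaturated (cycles lengths) G ∧ G.edgeSet.ncard = m}, by norm_num,
      ⟨Nat.sInf_mem ⟨17, hmem⟩, fun m hm => Nat.sInf_le hm⟩, ?_⟩
  have h1 : (sInf {m : ℕ | ∃ G : SimpleGraph (Fin 15),
      IsSaturated (cycles lengths) G ∧ G.edgeSet.ncard = m} : ℕ) ≤ 17 := Nat.sInf_le hmem
  have h2 : ⌈(5 * ((15 : ℕ) : ℚ) / 4 - 3 / 2)⌉ = 18 := by
    rw [Int.ceil_eq_iff]
    norm_num
  rw [h2]
  have h3 : ((sInf {m : ℕ | ∃ G : SimpleGraph (Fin 15),
      IsSaturated (cycles lengths) G ∧ G.edgeSet.ncard = m} : ℕ) : ℤ) ≤ 17 := by exact_mod_cast h1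
  linarith

end Pool.Agent.Results.MP_df7c80_co.Disproof
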